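import Pool.Agent.H487.GA.Stm2

set_option autoImplicit false

/-!
# `hn_proof : S_HN` (board task 13340 for helper487)
The blocks of the far part of the Poisson kernel are admissible, uniformly.
-/

open Complex Filter Topology Set MeasureTheory

namespace Pool.Agent.H663.GA

open Pool.Agent.H487.GA

/-! ### Fourier tools (copied from `Pool/Agent/H203/ME/VAR.lean`) -/

theorem hcs {F : ℝ → ℝ} (h : ∀ x : ℝ, 1 ≤ |x| → F x = 0) : HasCompactSupport F := by
  refine HasCompactSupport.intro (isCompact_Icc (a := (-1 : ℝ)) (b := 1)) (fun x hx => h x ?_)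
  by_contra h1
  push Not at h1
  exact hx ⟨(abs_lt.1 h1).1.le, (abs_lt.1 h1).2.le⟩

theorem nrm_exp (x : ℝ) : ‖cexp (-(((x : ℝ) : ℂ) * I))‖ = 1 := by
  rw [← neg_mul, ← Complex.ofReal_neg]
  exact Complex.norm_exp_ofReal_mul_I _

theorem int_mul {F : ℝ → ℝ} (hc : Continuous F) (hs : HasCompactSupport F) (g : ℝ → ℂ) (hg : Continuous g) :
    Integrable (fun s : ℝ => (F s : ℂ) * g s) := by
  apply Continuous.integrable_of_hasCompactSupport
  · exact (Complex.continuous_ofReal.comp hc).mul hg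
  · have h1 : HasCompactSupport (fun s : ℝ => (F s : ℂ)) := hs.comp_left (g := fun x : ℝ => (x : ℂ)) (by simp)
    exact h1.mul_right

theorem cont_e (ξ : ℝ) : Continuous (fun s : ℝ => cexp (-(((ξ * s : ℝ) : ℂ) * I))) := by fun_prop

theorem le_l1 {F : ℝ → ℝ} (ξ : ℝ) : ‖FF F ξ‖ ≤ ∫ x : ℝ, |F x| := by
  unfold FF
  refine (norm_integral_le_integral_norm _).trans (le_of_eq ?_)
  congr 1
  funext s
  rw [norm_mul, nrm_exp, mul_one, Complex.norm_real, Real.norm_eq_abs]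

theorem FF_der {F : ℝ → ℝ} (hc : ContDiff ℝ 1 F) (hs : HasCompactSupport F) (ξ : ℝ) :
    FF (deriv F) ξ = I * ξ * FF F ξ := by
  have hd : Continuous (deriv F) := hc.continuous_deriv le_rfl
  have hds : HasCompactSupport (deriv F) := hs.deriv
  have h1 := integral_mul_deriv_eq_deriv_mul_of_integrable (A := ℂ)
    (u := fun s : ℝ => (F s : ℂ)) (v := fun s : ℝ => cexp (-(((ξ * s : ℝ) : ℂ) * I)))
    (u' := fun s : ℝ => ((deriv F s : ℝ) : ℂ))
    (v' := fun s : ℝ => cexp (-(((ξ * s : ℝ) : ℂ) * I)) * (-((ξ : ℂ) * I)))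
    (fun x _ => ((hc.differentiable one_ne_zero x).hasDerivAt).ofReal_comp) (fun x _ => by
      have h2 : HasDerivAt (fun s : ℝ => -(((ξ * s : ℝ) : ℂ) * I)) (-((ξ : ℂ) * I)) x := by
        have h3 : HasDerivAt (fun s : ℝ => ((ξ * s : ℝ) : ℂ)) (ξ : ℂ) x := by
          have := ((hasDerivAt_id x).const_mul ξ).ofReal_comp
          simpa using this
        exact (h3.mul_const I).neg
      exact h2.cexp)
    (int_mul hc.continuous hs _ ((cont_e ξ).mul continuous_const))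
    (int_mul hd hds _ (cont_e ξ))
    (int_mul hc.continuous hs _ (cont_e ξ))
  have h2 : FF (deriv F) ξ = ∫ s : ℝ, ((deriv F s : ℝ) : ℂ) * cexp (-(((ξ * s : ℝ) : ℂ) * I)) := rfl
  rw [h2]
  have h3 : (∫ s : ℝ, (F s : ℂ) * (cexp (-(((ξ * s : ℝ) : ℂ) * I)) * (-((ξ : ℂ) * I)))) =
      (-((ξ : ℂ) * I)) * FF F ξ := by
    rw [FF, ← integral_const_mul]
    congr 1
    funext s
    ring
  have h4 : (∫ s : ℝ, ((deriv F s : ℝ) : ℂ) * cexp (-(((ξ * s : ℝ) : ℂ) * I))) =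
      -((-((ξ : ℂ) * I)) * FF F ξ) := by
    rw [← h3]
    linear_combination h1
  rw [h4]
  ring

theorem C2c_mul {F : ℝ → ℝ} (hF : C2c F) : C2c (fun s => s * F s) :=
  ⟨contDiff_id.mul hF.cd, fun x hx => by simp [hF.supp x hx]⟩

theorem FF_hasDeriv {F : ℝ → ℝ} (hc : Continuous F) (hs : HasCompactSupport F) (ξ : ℝ) :
    HasDerivAt (FF F) (-I * FF (fun s => s * F s) ξ) ξ := by
  have h0 : HasCompactSupport (fun s => s * F s) := hs.mul_left
  have h1 := hasDerivAt_integral_of_dominated_loc_of_deriv_le (μ := volume) (𝕜 := ℝ)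
    (F := fun (ξ : ℝ) (s : ℝ) => (F s : ℂ) * cexp (-(((ξ * s : ℝ) : ℂ) * I)))
    (F' := fun (ξ : ℝ) (s : ℝ) => (F s : ℂ) * (cexp (-(((ξ * s : ℝ) : ℂ) * I)) * (-((s : ℂ) * I))))
    (bound := fun s => ‖((s * F s : ℝ) : ℂ) * 1‖) (x₀ := ξ) (s := univ) univ_mem
    (Eventually.of_forall fun x => (int_mul hc hs _ (cont_e x)).aestronglyMeasurable)
    (int_mul hc hs _ (cont_e ξ))
    ((int_mul hc hs _ ((cont_e ξ).mul (by fun_prop))).aestronglyMeasurable)
    (Eventually.of_forall fun s x _ => by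
      rw [norm_mul, norm_mul, nrm_exp, one_mul, norm_neg, norm_mul, Complex.norm_I, mul_one, mul_one,
        Complex.norm_real, Complex.norm_real, Complex.norm_real, norm_mul, mul_comm])
    ((int_mul (by fun_prop) h0 (fun _ => 1) continuous_const).norm)
    (Eventually.of_forall fun s x _ => by
      have h2 : HasDerivAt (fun ξ : ℝ => -(((ξ * s : ℝ) : ℂ) * I)) (-((s : ℂ) * I)) x := by
        have h3 : HasDerivAt (fun ξ : ℝ => ((ξ * s : ℝ) : ℂ)) (s : ℂ) x := by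
          have := ((hasDerivAt_id x).mul_const s).ofReal_comp
          simpa using this
        exact (h3.mul_const I).neg
      exact (h2.cexp).const_mul _)
  have h2 := h1.2
  have h3 : (∫ s : ℝ, (F s : ℂ) * (cexp (-(((ξ * s : ℝ) : ℂ) * I)) * (-((s : ℂ) * I)))) =
      -I * FF (fun s => s * F s) ξ := by
    rw [FF, ← integral_const_mul]
    congr 1
    funext s
    push_cast
    ring
  rw [h3] at h2
  exact h2

theorem FF_le2 {F : ℝ → ℝ} (hF : C2c F) (ξ : ℝ) (hξ : ξ ≠ 0) :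
    ‖FF F ξ‖ ≤ (∫ x : ℝ, |deriv (deriv F) x|) / ξ ^ 2 := by
  have hs := hcs hF.supp
  have h1 : ContDiff ℝ 1 F := hF.cd.of_le (by norm_num)
  have h2 : ContDiff ℝ 1 (deriv F) := by
    have := hF.cd
    rw [show (2 : WithTop ℕ∞) = 1 + 1 by norm_num] at this
    exact (contDiff_succ_iff_deriv.1 this).2.2
  have h3 := FF_der h1 hs ξ
  have h4 := FF_der h2 hs.deriv ξ
  have h5 : FF (deriv (deriv F)) ξ = -(ξ : ℂ) ^ 2 * FF F ξ := by
    rw [h4, h3]
    linear_combination ((ξ : ℂ) ^ 2 * FF F ξ) * I_sq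
  have h6 : ‖FF (deriv (deriv F)) ξ‖ = ξ ^ 2 * ‖FF F ξ‖ := by
    rw [h5, norm_mul, norm_neg, norm_pow, Complex.norm_real, Real.norm_eq_abs, sq_abs]
  have h7 : ‖FF (deriv (deriv F)) ξ‖ ≤ ∫ x : ℝ, |deriv (deriv F) x| := le_l1 ξ
  rw [h6] at h7
  rw [le_div_iff₀ (by positivity)]
  linarith

theorem FF_deriv {F : ℝ → ℝ} (hF : C2c F) (ξ : ℝ) : ‖deriv (FF F) ξ‖ = ‖FF (fun s => s * F s) ξ‖ := by
  rw [(FF_hasDeriv hF.cd.continuous (hcs hF.supp) ξ).deriv, norm_mul, norm_neg, Complex.norm_I, one_mul]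

/-! ### integrals -/

/-- `∫ |f| ≤ 2 B` for functions bounded by `B` on `[-1,1]`, zero outside -/
theorem int_le {f : ℝ → ℝ} {B : ℝ} (h1 : ∀ x, |f x| ≤ B) (h0 : ∀ x, 1 < |x| → f x = 0) :
    ∫ x : ℝ, |f x| ≤ 2 * B := by
  have h2 : ∫ x : ℝ, |f x| ≤ ∫ x : ℝ, (Icc (-1 : ℝ) 1).indicator (fun _ => B) x := by
    apply integral_mono_of_nonneg
    · exact Eventually.of_forall fun x => abs_nonneg _
    · exact (integrable_indicator_iff measurableSet_Icc).2 (by
        apply integrableOn_const <;> simp)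
    · refine Eventually.of_forall fun x => ?_
      by_cases hx : x ∈ Icc (-1 : ℝ) 1
      · simp only [indicator_of_mem hx]
        exact h1 x
      · simp only [indicator_of_notMem hx]
        have : 1 < |x| := by
          by_contra h3
          push Not at h3
          exact hx (abs_le.1 h3)
        rw [h0 x this, abs_zero]
  refine h2.trans (le_of_eq ?_)
  rw [integral_indicator measurableSet_Icc, setIntegral_const]
  simp
  norm_num

/-- domination on the half line by `A / (1 + ξ²)` -/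
theorem int_half {f : ℝ → ℝ} {A : ℝ} (hA : 0 ≤ A) (h0 : ∀ x, 0 < x → 0 ≤ f x)
    (h1 : ∀ x, 0 < x → x ≤ 1 → f x ≤ A) (h2 : ∀ x, 1 ≤ x → f x ≤ A / x ^ 2) :
    ∫ x in Ioi (0 : ℝ), f x ≤ 8 * A := by
  have hi : Integrable (fun x : ℝ => 2 * A * (1 + x ^ 2)⁻¹) := integrable_inv_one_add_sq.const_mul _
  have h3 : ∫ x in Ioi (0 : ℝ), f x ≤ ∫ x in Ioi (0 : ℝ), 2 * A * (1 + x ^ 2)⁻¹ := by
    apply integral_mono_of_nonneg
    · exact (ae_restrict_iff' measurableSet_Ioi).2 (Eventually.of_forall fun x hx => h0 x hx)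
    · exact hi.integrableOn
    · refine (ae_restrict_iff' measurableSet_Ioi).2 (Eventually.of_forall fun x hx => ?_)
      have hx : 0 < x := hx
      rcases le_total x 1 with h | h
      · refine (h1 x hx h).trans ?_
        show A ≤ 2 * A * (1 + x ^ 2)⁻¹
        rw [← div_eq_mul_inv, le_div_iff₀ (by positivity)]
        nlinarith [mul_nonneg hA (sub_nonneg.2 (pow_le_one₀ hx.le h : x ^ 2 ≤ 1))]
      · refine (h2 x h).trans ?_
        show A / x ^ 2 ≤ 2 * A * (1 + x ^ 2)⁻¹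
        rw [← div_eq_mul_inv, div_le_div_iff₀ (by positivity) (by positivity)]
        have : 1 ≤ x ^ 2 := one_le_pow₀ h
        nlinarith [mul_nonneg hA (sub_nonneg.2 this)]
  refine h3.trans ?_
  have h4 : ∫ x in Ioi (0 : ℝ), 2 * A * (1 + x ^ 2)⁻¹ ≤ ∫ x : ℝ, 2 * A * (1 + x ^ 2)⁻¹ := by
    apply setIntegral_le_integral hi
    exact Eventually.of_forall fun x => by positivity
  refine h4.trans ?_
  rw [integral_const_mul, integral_univ_inv_one_add_sq]
  nlinarith [Real.pi_le_four]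

/-- the criterion: `C²` bounds give admissibility -/
theorem adm_of {F : ℝ → ℝ} {B L : ℝ} (hB : 0 ≤ B) (hB1 : B ≤ 1 / 32) (hL : 1 ≤ L) (hF : C2c F)
    (b0 : ∀ x, |F x| ≤ B) (b1 : ∀ x, |deriv F x| ≤ B) (b2 : ∀ x, |deriv (deriv F) x| ≤ B) :
    Adm 1 1 L F := by
  have hd1 : ContDiff ℝ 1 (deriv F) := by
    have := hF.cd
    rw [show (2 : WithTop ℕ∞) = 1 + 1 by norm_num] at this
    exact (contDiff_succ_iff_deriv.1 this).2.2
  have hz : ∀ x : ℝ, 1 < |x| → F =ᶠ[𝓝 x] fun _ => 0 := by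
    intro x hx
    have h1 : {z : ℝ | 1 < |z|} ∈ 𝓝 x := (isOpen_lt continuous_const continuous_abs).mem_nhds hx
    filter_upwards [h1] with z hz
    exact hF.supp z (le_of_lt hz)
  have hz1 : ∀ x : ℝ, 1 < |x| → deriv F =ᶠ[𝓝 x] fun _ => 0 := by
    intro x hx
    have := (hz x hx).deriv
    refine this.trans (Eventually.of_forall fun z => ?_)
    simp
  have z1 : ∀ x : ℝ, 1 < |x| → deriv F x = 0 := fun x hx => (hz1 x hx).eq_of_nhds
  have z2 : ∀ x : ℝ, 1 < |x| → deriv (deriv F) x = 0 := fun x hx => by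
    rw [(hz1 x hx).deriv_eq]; simp
  have l1 : ∫ x : ℝ, |F x| ≤ 2 * B := int_le b0 fun x hx => hF.supp x hx.le
  have l2 : ∫ x : ℝ, |deriv (deriv F) x| ≤ 2 * B := int_le b2 z2
  have hG := C2c_mul hF
  have dG : deriv (fun s => s * F s) = fun s => F s + s * deriv F s := by
    funext s
    have h1 : HasDerivAt F (deriv F s) s := (hF.cd.differentiable (by norm_num) s).hasDerivAt
    have := (hasDerivAt_id s).mul h1
    have h2 : HasDerivAt (fun s => s * F s) (F s + s * deriv F s) s := by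
      refine this.congr_deriv ?_
      simp
    exact h2.deriv
  have ddG : deriv (deriv (fun s => s * F s)) = fun s => 2 * deriv F s + s * deriv (deriv F) s := by
    rw [dG]
    funext s
    have h1 : HasDerivAt F (deriv F s) s := (hF.cd.differentiable (by norm_num) s).hasDerivAt
    have h3 : HasDerivAt (deriv F) (deriv (deriv F) s) s := (hd1.differentiable (by norm_num) s).hasDerivAt
    have := h1.add ((hasDerivAt_id s).mul h3)
    have h2 : HasDerivAt (fun s => F s + s * deriv F s) (2 * deriv F s + s * deriv (deriv F) s) s := by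
      refine this.congr_deriv ?_
      simp
      ring
    exact h2.deriv
  have g1 : ∫ x : ℝ, |x * F x| ≤ 2 * B := by
    refine int_le (fun x => ?_) (fun x hx => by rw [hF.supp x hx.le, mul_zero])
    rcases lt_or_ge 1 |x| with h | h
    · rw [hF.supp x h.le, mul_zero, abs_zero]; exact hB
    · rw [abs_mul]
      calc |x| * |F x| ≤ 1 * B := mul_le_mul h (b0 x) (abs_nonneg _) zero_le_one
        _ = B := one_mul B
  have g2 : ∫ x : ℝ, |deriv (deriv (fun s => s * F s)) x| ≤ 6 * B := by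
    rw [ddG]
    have := int_le (f := fun s => 2 * deriv F s + s * deriv (deriv F) s) (B := 3 * B)
      (fun x => by
        rcases lt_or_ge 1 |x| with h | h
        · rw [z1 x h, z2 x h]; simp; exact hB
        · refine (abs_add_le _ _).trans ?_
          rw [abs_mul, abs_mul, abs_two]
          have := mul_le_mul h (b2 x) (abs_nonneg _) zero_le_one
          linarith [b1 x])
      (fun x hx => by rw [z1 x hx, z2 x hx]; simp)
    linarith
  have f1 : ∀ ξ : ℝ, ‖FF F ξ‖ ≤ 2 * B := fun ξ => (le_l1 ξ).trans l1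
  have f2 : ∀ ξ : ℝ, 0 < ξ → ‖FF F ξ‖ ≤ 2 * B / ξ ^ 2 := fun ξ hξ =>
    (FF_le2 hF ξ hξ.ne').trans (div_le_div_of_nonneg_right l2 (by positivity))
  have d1 : ∀ ξ : ℝ, ‖deriv (FF F) ξ‖ ≤ 2 * B := fun ξ => by
    rw [FF_deriv hF]; exact (le_l1 ξ).trans g1
  have d2 : ∀ ξ : ℝ, 0 < ξ → ‖deriv (FF F) ξ‖ ≤ 6 * B / ξ ^ 2 := fun ξ hξ => by
    rw [FF_deriv hF]
    exact (FF_le2 hG ξ hξ.ne').trans (div_le_div_of_nonneg_right g2 (by positivity))
  have hB2 : B ^ 2 ≤ 1 / 1024 := by nlinarith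
  refine ⟨hF, by linarith, by linarith, ?_, ?_⟩
  · have := int_half (f := fun ξ => ξ * ‖FF F ξ‖ ^ 2) (A := 4 * B ^ 2) (by positivity)
      (fun x hx => by positivity)
      (fun x hx h1 => by
        have h2 : ‖FF F x‖ ^ 2 ≤ (2 * B) ^ 2 := pow_le_pow_left₀ (norm_nonneg _) (f1 x) 2
        calc x * ‖FF F x‖ ^ 2 ≤ 1 * (2 * B) ^ 2 := mul_le_mul h1 h2 (by positivity) zero_le_one
          _ = 4 * B ^ 2 := by ring)
      (fun x hx => by
        have hx0 : 0 < x := by linarith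
        have h2 : ‖FF F x‖ ^ 2 ≤ (2 * B / x ^ 2) ^ 2 := pow_le_pow_left₀ (norm_nonneg _) (f2 x hx0) 2
        calc x * ‖FF F x‖ ^ 2 ≤ x * (2 * B / x ^ 2) ^ 2 := mul_le_mul_of_nonneg_left h2 hx0.le
          _ = 4 * B ^ 2 / x ^ 3 := by field_simp; ring
          _ ≤ 4 * B ^ 2 / x ^ 2 := by
            apply div_le_div_of_nonneg_left (by positivity) (by positivity)
            exact pow_le_pow_right₀ hx (by norm_num))
    linarith
  · have := int_half (f := fun ξ => ‖FF F ξ‖ ^ 2 + 2 * ξ * ‖FF F ξ‖ * ‖deriv (FF F) ξ‖) (A := 28 * B ^ 2)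
      (by positivity)
      (fun x hx => by positivity)
      (fun x hx h1 => by
        have h2 : ‖FF F x‖ ^ 2 ≤ (2 * B) ^ 2 := pow_le_pow_left₀ (norm_nonneg _) (f1 x) 2
        have h3 : ‖FF F x‖ * ‖deriv (FF F) x‖ ≤ (2 * B) * (2 * B) :=
          mul_le_mul (f1 x) (d1 x) (norm_nonneg _) (by positivity)
        have h4 : x * (‖FF F x‖ * ‖deriv (FF F) x‖) ≤ 1 * ((2 * B) * (2 * B)) :=
          mul_le_mul h1 h3 (by positivity) zero_le_one
        nlinarith [sq_nonneg B])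
      (fun x hx => by
        have hx0 : 0 < x := by linarith
        have h2 : ‖FF F x‖ ^ 2 ≤ (2 * B / x ^ 2) ^ 2 := pow_le_pow_left₀ (norm_nonneg _) (f2 x hx0) 2
        have h3 : ‖FF F x‖ * ‖deriv (FF F) x‖ ≤ (2 * B / x ^ 2) * (6 * B / x ^ 2) :=
          mul_le_mul (f2 x hx0) (d2 x hx0) (norm_nonneg _) (by positivity)
        have h4 : 2 * x * ‖FF F x‖ * ‖deriv (FF F) x‖ ≤ 2 * x * ((2 * B / x ^ 2) * (6 * B / x ^ 2)) := by
          rw [mul_assoc]
          exact mul_le_mul_of_nonneg_left h3 (by positivity)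
        have h5 : (2 * B / x ^ 2) ^ 2 ≤ 4 * B ^ 2 / x ^ 2 := by
          rw [div_pow, show (2 * B) ^ 2 = 4 * B ^ 2 by ring]
          apply div_le_div_of_nonneg_left (by positivity) (by positivity)
          rw [← pow_mul]
          exact pow_le_pow_right₀ hx (by norm_num)
        have h6 : 2 * x * ((2 * B / x ^ 2) * (6 * B / x ^ 2)) ≤ 24 * B ^ 2 / x ^ 2 := by
          have e : 2 * x * ((2 * B / x ^ 2) * (6 * B / x ^ 2)) = 24 * B ^ 2 / x ^ 3 := by
            field_simp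
            ring
          rw [e]
          apply div_le_div_of_nonneg_left (by positivity) (by positivity)
          exact pow_le_pow_right₀ hx (by norm_num)
        calc ‖FF F x‖ ^ 2 + 2 * x * ‖FF F x‖ * ‖deriv (FF F) x‖
            ≤ 4 * B ^ 2 / x ^ 2 + 24 * B ^ 2 / x ^ 2 := add_le_add (h2.trans h5) (h4.trans h6)
          _ = 28 * B ^ 2 / x ^ 2 := by ring)
    linarith

/-! ### the function -/

/-- `1/(X²+y²)` -/
noncomputable def D0 (y X : ℝ) : ℝ := (X ^ 2 + y ^ 2)⁻¹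
/-- first derivative -/
noncomputable def D1 (y X : ℝ) : ℝ := -(2 * X) / (X ^ 2 + y ^ 2) ^ 2
/-- second derivative -/
noncomputable def D2 (y X : ℝ) : ℝ := (6 * X ^ 2 - 2 * y ^ 2) / (X ^ 2 + y ^ 2) ^ 3

theorem D0_der {y : ℝ} (hy : 0 < y) (X : ℝ) : HasDerivAt (D0 y) (D1 y X) X := by
  have h0 : X ^ 2 + y ^ 2 ≠ 0 := by positivity
  have h1 : HasDerivAt (fun X : ℝ => X ^ 2 + y ^ 2) (2 * X) X := by
    have := (hasDerivAt_pow 2 X).add_const (y ^ 2)
    simpa using this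
  exact h1.inv h0

theorem D1_der {y : ℝ} (hy : 0 < y) (X : ℝ) : HasDerivAt (D1 y) (D2 y X) X := by
  have h0 : X ^ 2 + y ^ 2 ≠ 0 := by positivity
  have h1 : HasDerivAt (fun X : ℝ => X ^ 2 + y ^ 2) (2 * X) X := by
    have := (hasDerivAt_pow 2 X).add_const (y ^ 2)
    simpa using this
  have h2 : HasDerivAt (fun X : ℝ => -(2 * X)) (-2) X := by
    have := ((hasDerivAt_id' X).const_mul (2 : ℝ)).fun_neg
    simpa using this
  have h3 := h2.div (h1.pow 2) (pow_ne_zero 2 h0)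
  refine h3.congr_deriv ?_
  unfold D2
  simp only [Pi.pow_apply]
  field_simp
  ring

theorem D0_nonneg (y X : ℝ) : 0 ≤ D0 y X := by unfold D0; positivity

theorem D1_le {y X : ℝ} (hX : 1 / 2 ≤ |X|) : |D1 y X| ≤ 4 * D0 y X := by
  have hX2 : 1 / 4 ≤ X ^ 2 := by
    rw [← sq_abs]; nlinarith
  have h0 : 0 < X ^ 2 + y ^ 2 := by positivity
  unfold D1 D0
  rw [abs_div, abs_of_pos (pow_pos h0 2), ← div_eq_mul_inv, div_le_div_iff₀ (pow_pos h0 2) h0, abs_neg, abs_mul, abs_two]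
  have h1 : |X| ≤ 2 * X ^ 2 := by
    rw [← sq_abs X]; nlinarith
  have h2 : 2 * |X| ≤ 4 * (X ^ 2 + y ^ 2) := by nlinarith [sq_nonneg y]
  nlinarith [mul_le_mul_of_nonneg_right h2 h0.le]

theorem D2_le {y X : ℝ} (hX : 1 / 2 ≤ |X|) : |D2 y X| ≤ 24 * D0 y X := by
  have hX2 : 1 / 4 ≤ X ^ 2 := by
    rw [← sq_abs]; nlinarith
  have h0 : 0 < X ^ 2 + y ^ 2 := by positivity
  unfold D2 D0
  rw [abs_div, abs_of_pos (pow_pos h0 3), ← div_eq_mul_inv, div_le_div_iff₀ (pow_pos h0 3) h0]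
  have h1 : |6 * X ^ 2 - 2 * y ^ 2| ≤ 6 * (X ^ 2 + y ^ 2) := by
    rw [abs_le]; constructor <;> nlinarith [sq_nonneg y, sq_nonneg X]
  have h2 : 6 * (X ^ 2 + y ^ 2) ≤ 24 * (X ^ 2 + y ^ 2) ^ 2 := by nlinarith [sq_nonneg y]
  have h3 := mul_le_mul_of_nonneg_right (h1.trans h2) h0.le
  calc |6 * X ^ 2 - 2 * y ^ 2| * (X ^ 2 + y ^ 2) ≤ 24 * (X ^ 2 + y ^ 2) ^ 2 * (X ^ 2 + y ^ 2) := h3
    _ = 24 * (X ^ 2 + y ^ 2) ^ 3 := by ring

theorem key {y : ℝ} {n : ℤ} {x : ℝ} (hx : |x| ≤ 1) (hX : 1 / 2 ≤ |x + n / 2|) :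
    (1 + (n : ℝ) ^ 2) * D0 y (x + n / 2) ≤ 45 := by
  set X := x + (n : ℝ) / 2 with hXd
  have hn : (n : ℝ) = 2 * (X - x) := by rw [hXd]; ring
  have hX2 : 1 / 4 ≤ X ^ 2 := by
    rw [← sq_abs]; nlinarith
  have h0 : 0 < X ^ 2 + y ^ 2 := by positivity
  have hx2 : x ^ 2 ≤ 1 := by
    rw [← sq_abs]; exact pow_le_one₀ (abs_nonneg _) hx
  unfold D0
  rw [← div_eq_mul_inv, div_le_iff₀ h0, hn]
  nlinarith [sq_nonneg (X + x), sq_nonneg y]

section
variable {P W : ℝ → ℝ} {k a y : ℝ}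

/-- the function -/
noncomputable def Fn (P W : ℝ → ℝ) (k a y x : ℝ) : ℝ := k * (P x * W (x + a) * D0 y (x + a))

/-- first derivative -/
noncomputable def Fn1 (P W : ℝ → ℝ) (k a y x : ℝ) : ℝ :=
  k * ((deriv P x * W (x + a) + P x * deriv W (x + a)) * D0 y (x + a) + P x * W (x + a) * D1 y (x + a))

/-- second derivative -/
noncomputable def Fn2 (P W : ℝ → ℝ) (k a y x : ℝ) : ℝ :=
  k * ((deriv (deriv P) x * W (x + a) + 2 * (deriv P x * deriv W (x + a)) + P x * deriv (deriv W) (x + a)) * D0 y (x + a)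
    + 2 * ((deriv P x * W (x + a) + P x * deriv W (x + a)) * D1 y (x + a)) + P x * W (x + a) * D2 y (x + a))

theorem d1cd {P : ℝ → ℝ} (hP : ContDiff ℝ 2 P) : ContDiff ℝ 1 (deriv P) := by
  rw [show (2 : WithTop ℕ∞) = 1 + 1 by norm_num] at hP
  exact (contDiff_succ_iff_deriv.1 hP).2.2

theorem Fn_der (hP : ContDiff ℝ 2 P) (hW : ContDiff ℝ 2 W) (hy : 0 < y) (x : ℝ) :
    HasDerivAt (Fn P W k a y) (Fn1 P W k a y x) x := by
  have hp : HasDerivAt P (deriv P x) x := (hP.differentiable (by norm_num) x).hasDerivAt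
  have hw : HasDerivAt (fun x => W (x + a)) (deriv W (x + a)) x :=
    ((hW.differentiable (by norm_num) (x + a)).hasDerivAt).comp_add_const x a
  have hd : HasDerivAt (fun x => D0 y (x + a)) (D1 y (x + a)) x := (D0_der hy (x + a)).comp_add_const x a
  exact ((hp.mul hw).mul hd).const_mul k

theorem Fn1_der (hP : ContDiff ℝ 2 P) (hW : ContDiff ℝ 2 W) (hy : 0 < y) (x : ℝ) :
    HasDerivAt (Fn1 P W k a y) (Fn2 P W k a y x) x := by
  have hp : HasDerivAt P (deriv P x) x := (hP.differentiable (by norm_num) x).hasDerivAt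
  have hw : HasDerivAt (fun x => W (x + a)) (deriv W (x + a)) x :=
    ((hW.differentiable (by norm_num) (x + a)).hasDerivAt).comp_add_const x a
  have hd : HasDerivAt (fun x => D0 y (x + a)) (D1 y (x + a)) x := (D0_der hy (x + a)).comp_add_const x a
  have hp1 : HasDerivAt (deriv P) (deriv (deriv P) x) x := ((d1cd hP).differentiable (by norm_num) x).hasDerivAt
  have hw1 : HasDerivAt (fun x => deriv W (x + a)) (deriv (deriv W) (x + a)) x :=
    (((d1cd hW).differentiable (by norm_num) (x + a)).hasDerivAt).comp_add_const x a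
  have hd1 : HasDerivAt (fun x => D1 y (x + a)) (D2 y (x + a)) x := (D1_der hy (x + a)).comp_add_const x a
  have := ((((hp1.mul hw).add (hp.mul hw1)).mul hd).add ((hp.mul hw).mul hd1)).const_mul k
  refine this.congr_deriv ?_
  unfold Fn2
  simp only [Pi.mul_apply, Pi.add_apply]
  ring

theorem Fn_cd (hP : ContDiff ℝ 2 P) (hW : ContDiff ℝ 2 W) (hy : 0 < y) : ContDiff ℝ 2 (Fn P W k a y) := by
  unfold Fn D0
  refine contDiff_const.mul ((hP.mul (hW.comp (contDiff_id.add contDiff_const))).mul ?_)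
  apply ContDiff.inv
  · exact ((contDiff_id.add contDiff_const).pow 2).add contDiff_const
  · intro x
    positivity

theorem abs3 {p w d M N E : ℝ} (hp : |p| ≤ M) (hw : |w| ≤ N) (hd : |d| ≤ E) : |p * w * d| ≤ M * N * E := by
  rw [abs_mul, abs_mul]
  have hM : 0 ≤ M := (abs_nonneg _).trans hp
  have hN : 0 ≤ N := (abs_nonneg _).trans hw
  exact mul_le_mul (mul_le_mul hp hw (abs_nonneg _) hM) hd (abs_nonneg _) (by positivity)

end

/-- bounds and zeros for a smooth function supported in `[-1/2,1/2]` -/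
theorem bdd {P : ℝ → ℝ} (hP : ContDiff ℝ 2 P) (h0 : ∀ x : ℝ, 1 ≤ |x| → P x = 0) :
    ∃ M : ℝ, 0 ≤ M ∧ ∀ x, |P x| ≤ M ∧ |deriv P x| ≤ M ∧ |deriv (deriv P) x| ≤ M := by
  have hs := hcs h0
  obtain ⟨M0, hM0⟩ := hs.exists_bound_of_continuous hP.continuous
  obtain ⟨M1, hM1⟩ := hs.deriv.exists_bound_of_continuous (hP.continuous_deriv (by norm_num))
  obtain ⟨M2, hM2⟩ := hs.deriv.deriv.exists_bound_of_continuous ((d1cd hP).continuous_deriv (by norm_num))
  have e0 := (norm_nonneg _).trans (hM0 0)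
  have e1 := (norm_nonneg _).trans (hM1 0)
  have e2 := (norm_nonneg _).trans (hM2 0)
  refine ⟨M0 + M1 + M2, by positivity, fun x => ⟨?_, ?_, ?_⟩⟩
  · have := hM0 x
    rw [Real.norm_eq_abs] at this
    linarith
  · have := hM1 x
    rw [Real.norm_eq_abs] at this
    linarith
  · have := hM2 x
    rw [Real.norm_eq_abs] at this
    linarith

theorem zer_open {P : ℝ → ℝ} {U : Set ℝ} (hU : IsOpen U) (h0 : ∀ x ∈ U, P x = 0) :
    ∀ x ∈ U, P x = 0 ∧ deriv P x = 0 ∧ deriv (deriv P) x = 0 := by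
  intro x hx
  have e0 : ∀ x ∈ U, P =ᶠ[𝓝 x] fun _ => (0 : ℝ) := fun x hx => by
    filter_upwards [hU.mem_nhds hx] with z hz
    exact h0 z hz
  have h1 : ∀ x ∈ U, deriv P x = 0 := fun x hx => by
    rw [(e0 x hx).deriv_eq]; simp
  have e1 : ∀ x ∈ U, deriv P =ᶠ[𝓝 x] fun _ => (0 : ℝ) := fun x hx => by
    filter_upwards [hU.mem_nhds hx] with z hz
    exact h1 z hz
  refine ⟨h0 x hx, h1 x hx, ?_⟩
  rw [(e1 x hx).deriv_eq]; simp

/-- the main estimate -/
theorem main {P W : ℝ → ℝ} {M N c y : ℝ} {n : ℤ}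
    (hP0 : ∀ x : ℝ, 1 ≤ |x| → P x = 0) (hW0 : ∀ x : ℝ, |x| ≤ 1 / 2 → W x = 0)
    (hM : ∀ x, |P x| ≤ M ∧ |deriv P x| ≤ M ∧ |deriv (deriv P) x| ≤ M)
    (hN : ∀ x, |W x| ≤ N ∧ |deriv W x| ≤ N ∧ |deriv (deriv W) x| ≤ N) (hc : 0 ≤ c) :
    ∀ x, |Fn P W (c * (1 + (n : ℝ) ^ 2)) (n / 2) y x| ≤ 1980 * (c * (M * N)) ∧
      |Fn1 P W (c * (1 + (n : ℝ) ^ 2)) (n / 2) y x| ≤ 1980 * (c * (M * N)) ∧
      |Fn2 P W (c * (1 + (n : ℝ) ^ 2)) (n / 2) y x| ≤ 1980 * (c * (M * N)) := by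
  intro x
  have hM0 : 0 ≤ M := (abs_nonneg _).trans (hM 0).1
  have hN0 : 0 ≤ N := (abs_nonneg _).trans (hN 0).1
  have hB : 0 ≤ 1980 * (c * (M * N)) := by positivity
  rcases lt_or_ge 1 |x| with h | h
  · obtain ⟨a0, a1, a2⟩ := zer_open (U := {x : ℝ | 1 < |x|}) (isOpen_lt continuous_const continuous_abs)
      (fun x hx => hP0 x (le_of_lt hx)) x h
    refine ⟨?_, ?_, ?_⟩
    · unfold Fn; rw [a0]; simpa using hB
    · unfold Fn1; rw [a0, a1]; simpa using hB
    · unfold Fn2; rw [a0, a1, a2]; simpa using hB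
  rcases lt_or_ge |x + n / 2| (1 / 2) with h' | h'
  · obtain ⟨a0, a1, a2⟩ := zer_open (U := {x : ℝ | |x| < 1 / 2}) (isOpen_lt continuous_abs continuous_const)
      (fun x hx => hW0 x (le_of_lt hx)) (x + n / 2) h'
    refine ⟨?_, ?_, ?_⟩
    · unfold Fn; rw [a0]; simpa using hB
    · unfold Fn1; rw [a0, a1]; simpa using hB
    · unfold Fn2; rw [a0, a1, a2]; simpa using hB
  have hk := key (y := y) h h'
  have d0 : |D0 y (x + n / 2)| ≤ D0 y (x + n / 2) := (abs_of_nonneg (D0_nonneg _ _)).le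
  have d1 : |D1 y (x + n / 2)| ≤ 4 * D0 y (x + n / 2) := D1_le h'
  have d2 : |D2 y (x + n / 2)| ≤ 24 * D0 y (x + n / 2) := D2_le h'
  obtain ⟨p0, p1, p2⟩ := hM x
  obtain ⟨w0, w1, w2⟩ := hN (x + n / 2)
  have hq : 0 ≤ D0 y (x + n / 2) := D0_nonneg _ _
  set D := D0 y (x + n / 2) with hD
  have hk1 : 0 ≤ c * (1 + (n : ℝ) ^ 2) := by positivity
  have fin : ∀ t : ℝ, |t| ≤ 44 * (M * N * D) → |c * (1 + (n : ℝ) ^ 2) * t| ≤ 1980 * (c * (M * N)) := by
    intro t ht
    rw [abs_mul, abs_of_nonneg hk1]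
    calc c * (1 + (n : ℝ) ^ 2) * |t| ≤ c * (1 + (n : ℝ) ^ 2) * (44 * (M * N * D)) :=
          mul_le_mul_of_nonneg_left ht hk1
      _ = 44 * (c * (M * N)) * ((1 + (n : ℝ) ^ 2) * D) := by ring
      _ ≤ 44 * (c * (M * N)) * 45 := mul_le_mul_of_nonneg_left hk (by positivity)
      _ = 1980 * (c * (M * N)) := by ring
  have hMN : 0 ≤ M * N * D := by positivity
  refine ⟨?_, ?_, ?_⟩
  · unfold Fn
    apply fin
    have := abs3 p0 w0 d0
    linarith
  · unfold Fn1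
    apply fin
    have t1 := abs3 p1 w0 d0
    have t2 := abs3 p0 w1 d0
    have t3 := abs3 p0 w0 d1
    rw [add_mul]
    have s1 := abs_add_le (deriv P x * W (x + n / 2) * D0 y (x + n / 2) + P x * deriv W (x + n / 2) * D0 y (x + n / 2))
      (P x * W (x + n / 2) * D1 y (x + n / 2))
    have s2 := abs_add_le (deriv P x * W (x + n / 2) * D0 y (x + n / 2)) (P x * deriv W (x + n / 2) * D0 y (x + n / 2))
    linarith
  · unfold Fn2
    apply fin
    have t1 := abs3 p2 w0 d0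
    have t2 := abs3 p1 w1 d0
    have t3 := abs3 p0 w2 d0
    have t4 := abs3 p1 w0 d1
    have t5 := abs3 p0 w1 d1
    have t6 := abs3 p0 w0 d2
    have e : (deriv (deriv P) x * W (x + ↑n / 2) + 2 * (deriv P x * deriv W (x + ↑n / 2)) +
        P x * deriv (deriv W) (x + ↑n / 2)) * D0 y (x + ↑n / 2) +
        2 * ((deriv P x * W (x + ↑n / 2) + P x * deriv W (x + ↑n / 2)) * D1 y (x + ↑n / 2)) +
        P x * W (x + ↑n / 2) * D2 y (x + ↑n / 2) =
        (deriv (deriv P) x * W (x + ↑n / 2) * D0 y (x + ↑n / 2)) +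
        2 * (deriv P x * deriv W (x + ↑n / 2) * D0 y (x + ↑n / 2)) +
        (P x * deriv (deriv W) (x + ↑n / 2) * D0 y (x + ↑n / 2)) +
        2 * (deriv P x * W (x + ↑n / 2) * D1 y (x + ↑n / 2)) +
        2 * (P x * deriv W (x + ↑n / 2) * D1 y (x + ↑n / 2)) +
        P x * W (x + ↑n / 2) * D2 y (x + ↑n / 2) := by ring
    rw [e]
    rw [abs_le] at t1 t2 t3 t4 t5 t6 ⊢
    constructor <;> linarith [t1.1, t1.2, t2.1, t2.2, t3.1, t3.2, t4.1, t4.2, t5.1, t5.2, t6.1, t6.2]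

theorem psi_cd : ContDiff ℝ 2 (fun x => psi (2 * x)) := by
  unfold psi
  exact (Real.smoothTransition.contDiff.comp ((contDiff_const.mul contDiff_id).add contDiff_const)).sub
    (Real.smoothTransition.contDiff.comp (contDiff_const.mul contDiff_id))

theorem psi_zero (x : ℝ) (hx : 1 ≤ |x|) : psi (2 * x) = 0 := by
  unfold psi
  rcases le_abs.1 hx with h | h
  · rw [Real.smoothTransition.one_of_one_le (by linarith), Real.smoothTransition.one_of_one_le (by linarith), sub_self]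
  · rw [Real.smoothTransition.zero_of_nonpos (by linarith), Real.smoothTransition.zero_of_nonpos (by linarith), sub_self]

theorem chi_cd : ContDiff ℝ 2 chi := by
  unfold chi
  exact Real.smoothTransition.contDiff.comp (contDiff_const.mul (contDiff_const.sub (contDiff_id.pow 2)))

theorem chi_zero (x : ℝ) (hx : 1 ≤ |x|) : chi x = 0 := by
  unfold chi
  have : 1 ≤ x ^ 2 := by rw [← sq_abs]; exact one_le_pow₀ hx
  exact Real.smoothTransition.zero_of_nonpos (by linarith)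

theorem chi_one (x : ℝ) (hx : |x| ≤ 1 / 2) : chi x = 1 := by
  unfold chi
  have : x ^ 2 ≤ 1 / 4 := by
    rw [← sq_abs]; nlinarith [abs_nonneg x]
  exact Real.smoothTransition.one_of_one_le (by linarith)

theorem hn_proof : S_HN := by
  obtain ⟨M, hM0, hM⟩ := bdd psi_cd psi_zero
  obtain ⟨N, hN0, hN⟩ := bdd chi_cd chi_zero
  have hWcd : ContDiff ℝ 2 (fun x => 1 - chi x) := contDiff_const.sub chi_cd
  have dW : deriv (fun x => 1 - chi x) = fun x => - deriv chi x := by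
    funext x
    rw [deriv_const_sub]
  have ddW : deriv (deriv (fun x => 1 - chi x)) = fun x => - deriv (deriv chi) x := by
    rw [dW]
    funext x
    rw [deriv.fun_neg]
  have hW : ∀ x, |(fun x => 1 - chi x) x| ≤ N + 1 ∧ |deriv (fun x => 1 - chi x) x| ≤ N + 1 ∧
      |deriv (deriv (fun x => 1 - chi x)) x| ≤ N + 1 := by
    intro x
    obtain ⟨n0, n1, n2⟩ := hN x
    rw [ddW, dW]
    refine ⟨?_, ?_, ?_⟩
    · have := abs_sub (1 : ℝ) (chi x)
      rw [abs_one] at this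
      show |1 - chi x| ≤ N + 1
      linarith
    · show |-(deriv chi x)| ≤ N + 1
      rw [abs_neg]; linarith
    · show |-(deriv (deriv chi) x)| ≤ N + 1
      rw [abs_neg]; linarith
  set c : ℝ := 1 / (63360 * ((M + 1) * (N + 1))) with hc
  have hc0 : 0 < c := by positivity
  have hcB : 1980 * (c * ((M + 1) * (N + 1))) = 1 / 32 := by
    rw [hc]
    field_simp
    norm_num
  refine ⟨c, 1, hc0, one_pos, ?_⟩
  intro y hy _ n L hL
  have hF : (fun x => c * (1 + (n : ℝ) ^ 2) * Hn y n x) =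
      Fn (fun x => psi (2 * x)) (fun x => 1 - chi x) (c * (1 + (n : ℝ) ^ 2)) (n / 2) y := by
    funext x
    unfold Hn Fn D0
    rw [div_eq_mul_inv]
  rw [hF]
  have hb := main (M := M + 1) (N := N + 1) (c := c) (y := y) (n := n) psi_zero
    (fun x hx => by rw [chi_one x hx, sub_self])
    (fun x => ⟨by linarith [(hM x).1], by linarith [(hM x).2.1], by linarith [(hM x).2.2]⟩) hW hc0.le
  rw [hcB] at hb
  have e1 : deriv (Fn (fun x => psi (2 * x)) (fun x => 1 - chi x) (c * (1 + (n : ℝ) ^ 2)) (n / 2) y) =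
      Fn1 (fun x => psi (2 * x)) (fun x => 1 - chi x) (c * (1 + (n : ℝ) ^ 2)) (n / 2) y :=
    funext fun x => (Fn_der psi_cd hWcd hy x).deriv
  have e2 : deriv (Fn1 (fun x => psi (2 * x)) (fun x => 1 - chi x) (c * (1 + (n : ℝ) ^ 2)) (n / 2) y) =
      Fn2 (fun x => psi (2 * x)) (fun x => 1 - chi x) (c * (1 + (n : ℝ) ^ 2)) (n / 2) y :=
    funext fun x => (Fn1_der psi_cd hWcd hy x).deriv
  refine adm_of (B := 1 / 32) (by norm_num) le_rfl hL ⟨Fn_cd psi_cd hWcd hy, ?_⟩ (fun x => (hb x).1) ?_ ?_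
  · intro x hx
    unfold Fn
    show _ * (psi (2 * x) * _ * _) = 0
    rw [psi_zero x hx]
    ring
  · intro x
    rw [e1]
    exact (hb x).2.1
  · intro x
    rw [e1, e2]
    exact (hb x).2.2

end Pool.Agent.H663.GA

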